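import Mathlib
import Pool.Agent.R980.Censored

/-!
# The censored walk on a monotone set can mix slowly

The notions `Cube`, `UpClosed`, `flip`, `move`, `K` (transition probabilities), `law`, `unif`,
`tv` and `Mixed` are defined in `Pool/Agent/R980/Censored.lean`.
-/

set_option autoImplicit false

namespace Pool.Agent.Results.MP_52661b_pr.Bottleneck

open Finset Filter Topology
open Pool.Agent.R980.Censored

theorem exists_large (C : ℝ) : ∃ J : ℕ, 1 ≤ J ∧ ∀ j : ℕ, J ≤ j → 16 * C * j ≤ 2 ^ j := by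
  have h1 : Tendsto (fun j : ℕ => (j : ℝ) ^ 1 / (2 : ℝ) ^ j) atTop (𝓝 0) :=
    tendsto_pow_const_div_const_pow_of_one_lt 1 (by norm_num)
  have h2 : ∀ᶠ j : ℕ in atTop, (j : ℝ) ^ 1 / (2 : ℝ) ^ j < 1 / (16 * (|C| + 1)) :=
    h1.eventually_lt_const (by positivity)
  obtain ⟨J, hJ⟩ := eventually_atTop.1 h2
  refine ⟨max J 1, le_max_right _ _, fun j hj => ?_⟩
  have h3 := hJ j ((le_max_left _ _).trans hj)
  rw [pow_one, div_lt_div_iff₀ (by positivity) (by positivity)] at h3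
  have h4 : C ≤ |C| := le_abs_self C
  have h5 : (0 : ℝ) ≤ j := Nat.cast_nonneg _
  nlinarith

/-- sets of measure at least `(log n)⁻²` on which the walk is slower than `C n log n` -/
theorem dense (C : ℝ) : ∃ n0 : ℕ, ∀ n : ℕ, n0 ≤ n → ∃ A : Finset (Cube n), A.Nonempty ∧
    UpClosed A ∧ 1 / (Real.log n) ^ 2 ≤ (A.card : ℝ) / 2 ^ n ∧
      ∀ t : ℕ, Mixed A t → C * n * Real.log n < t := by
  obtain ⟨J, hJ1, hJ⟩ := exists_large (|C| + 1)
  have hlog : Tendsto (fun n : ℕ => Real.log n) atTop atTop :=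
    Real.tendsto_log_atTop.comp tendsto_natCast_atTop_atTop
  have hlog2 : Tendsto (fun n : ℕ => Real.log n / (n : ℝ)) atTop (𝓝 0) := by
    have h := Real.tendsto_pow_log_div_mul_add_atTop 1 0 1 (by norm_num)
    have h' := h.comp (tendsto_natCast_atTop_atTop (R := ℝ))
    refine h'.congr fun n => ?_
    simp
  have hev : ∀ᶠ n : ℕ in atTop, (2 : ℝ) ^ J ≤ Real.log n ∧ Real.log n / (n : ℝ) < 1 / 4 ∧ 1 ≤ n :=
    (hlog.eventually_ge_atTop _).and ((hlog2.eventually_lt_const (by norm_num)).and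
      (eventually_ge_atTop 1))
  obtain ⟨n0, hn0⟩ := eventually_atTop.1 hev
  refine ⟨n0, fun n hn => ?_⟩
  obtain ⟨h1, h2, h3⟩ := hn0 n hn
  set L : ℝ := Real.log n with hL
  set j : ℕ := Nat.log 2 ⌊L⌋₊ with hj
  have hnR : (0 : ℝ) < n := by exact_mod_cast h3
  have hL0 : 0 ≤ L := le_trans (by positivity) h1
  have hfl : 2 ^ J ≤ ⌊L⌋₊ := Nat.le_floor (by push_cast; exact h1)
  have hjJ : J ≤ j := by
    rw [hj]
    exact Nat.le_log_of_pow_le (by norm_num) hfl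
  have hfl0 : ⌊L⌋₊ ≠ 0 := by
    have : 0 < 2 ^ J := by positivity
    omega
  have hj1 : (2 : ℝ) ^ j ≤ L := by
    have h4 : 2 ^ j ≤ ⌊L⌋₊ := Nat.pow_log_le_self 2 hfl0
    have h5 : ((2 ^ j : ℕ) : ℝ) ≤ (⌊L⌋₊ : ℝ) := by exact_mod_cast h4
    push_cast at h5
    exact h5.trans (Nat.floor_le hL0)
  have hj2 : L < 2 * 2 ^ j := by
    have h4 : ⌊L⌋₊ < 2 ^ (j + 1) := Nat.lt_pow_succ_log_self (by norm_num) _
    have h5 : ⌊L⌋₊ + 1 ≤ 2 ^ (j + 1) := h4
    have h6 : ((⌊L⌋₊ + 1 : ℕ) : ℝ) ≤ ((2 ^ (j + 1) : ℕ) : ℝ) := by exact_mod_cast h5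
    push_cast at h6
    have h7 := Nat.lt_floor_add_one L
    have h8 : (2 : ℝ) ^ (j + 1) = 2 * 2 ^ j := by ring
    linarith
  have hj0 : 0 < j := by omega
  have h4j : 2 * (2 * j) ≤ n := by
    have h4 : (j : ℝ) ≤ 2 ^ j := by
      have : j < 2 ^ j := Nat.lt_two_pow_self
      exact_mod_cast this.le
    rw [div_lt_iff₀ hnR] at h2
    have h5 : ((2 * (2 * j) : ℕ) : ℝ) ≤ n := by
      push_cast
      linarith
    exact_mod_cast h5
  obtain ⟨A, hA1, hA2, hA3, hA4⟩ := slow (n := n) (2 * j) (by omega) h4j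
  have h4pow : (2 : ℝ) ^ (2 * j) = (2 ^ j) ^ 2 := by rw [← pow_mul]; ring_nf
  have hLpos : 0 < L := lt_of_lt_of_le (by positivity) h1
  refine ⟨A, hA1, hA2, ?_, fun t ht => ?_⟩
  · have h5 : ((2 ^ n : ℕ) : ℝ) ≤ ((2 ^ (2 * j) * A.card : ℕ) : ℝ) := by exact_mod_cast hA3
    push_cast at h5
    rw [h4pow] at h5
    rw [div_le_div_iff₀ (by positivity) (by positivity)]
    have h6 : ((2 : ℝ) ^ j) ^ 2 ≤ L ^ 2 := pow_le_pow_left₀ (by positivity) hj1 2
    have h7 : (0 : ℝ) ≤ A.card := Nat.cast_nonneg _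
    nlinarith
  · refine lt_of_lt_of_le ?_ (hA4 t ht)
    have hjR : (0 : ℝ) < j := by exact_mod_cast hj0
    push_cast
    rw [lt_div_iff₀ (by positivity), h4pow]
    have h5 := hJ j hjJ
    have h6 : C ≤ |C| := le_abs_self C
    have h7 : (2 : ℝ) ≤ 2 ^ j := by
      calc (2 : ℝ) = 2 ^ 1 := by norm_num
        _ ≤ 2 ^ j := pow_le_pow_right₀ (by norm_num) hj0
    have h8 : C * n * L * (2 * (2 * j)) < n * ((2 ^ j) ^ 2 - 1) := by
      have h9 : C * L * (4 * j) < (2 ^ j) ^ 2 - 1 := by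
        have h10 : C * L * (4 * j) ≤ |C| * L * (4 * j) := by
          have : 0 ≤ L * (4 * (j : ℝ)) := by positivity
          nlinarith
        have h11 : (|C| + 1) * (16 * (j : ℝ)) ≤ 2 ^ j := by linarith
        have h12 : |C| * L * (4 * j) ≤ |C| * (2 * 2 ^ j) * (4 * j) := by
          have : 0 ≤ |C| * (4 * (j : ℝ)) := by positivity
          nlinarith
        have h13 : |C| * (2 * 2 ^ j) * (4 * j) ≤ (2 ^ j) * (2 ^ j) / 2 := by
          have h14 : |C| * (16 * (j : ℝ)) ≤ 2 ^ j := by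
            have : (0 : ℝ) ≤ 16 * (j : ℝ) := by positivity
            nlinarith
          have h15 : (0 : ℝ) ≤ 2 ^ j := by positivity
          nlinarith
        have h16 : (2 : ℝ) ^ j * 2 ^ j / 2 < (2 ^ j) ^ 2 - 1 := by nlinarith
        linarith
      nlinarith
    linarith

/-- The `C n log n` bound fails; it fails exponentially in the worst case, and it fails already for
monotone sets of measure at least `(log n)⁻²`. -/
theorem result :
    (¬ ∃ C : ℝ, ∀ n : ℕ, 2 ≤ n → ∀ A : Finset (Cube n), A.Nonempty → UpClosed A →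
      ∃ t : ℕ, (t : ℝ) ≤ C * n * Real.log n ∧ Mixed A t) ∧
    (∀ n k : ℕ, 0 < k → 2 * k ≤ n → ∃ A : Finset (Cube n), A.Nonempty ∧ UpClosed A ∧
      1 / (2 : ℝ) ^ k ≤ (A.card : ℝ) / 2 ^ n ∧
      ∀ t : ℕ, Mixed A t → (n : ℝ) * (2 ^ k - 1) / (2 * k) ≤ t) ∧
    (∀ C : ℝ, ∃ n0 : ℕ, ∀ n : ℕ, n0 ≤ n → ∃ A : Finset (Cube n), A.Nonempty ∧ UpClosed A ∧
      1 / (Real.log n) ^ 2 ≤ (A.card : ℝ) / 2 ^ n ∧
      ∀ t : ℕ, Mixed A t → C * n * Real.log n < t) := by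
  refine ⟨?_, ?_, dense⟩
  · rintro ⟨C, hC⟩
    obtain ⟨n0, hn0⟩ := dense C
    obtain ⟨A, hA1, hA2, _, hA4⟩ := hn0 (max n0 2) (le_max_left _ _)
    obtain ⟨t, ht1, ht2⟩ := hC (max n0 2) (le_max_right _ _) A hA1 hA2
    exact absurd ht1 (not_le.2 (hA4 t ht2))
  · intro n k hk hn
    obtain ⟨A, hA1, hA2, hA3, hA4⟩ := slow (n := n) k hk hn
    refine ⟨A, hA1, hA2, ?_, hA4⟩
    have h5 : ((2 ^ n : ℕ) : ℝ) ≤ ((2 ^ k * A.card : ℕ) : ℝ) := by exact_mod_cast hA3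
    push_cast at h5
    rw [div_le_div_iff₀ (by positivity) (by positivity)]
    linarith

end Pool.Agent.Results.MP_52661b_pr.Bottleneck
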